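import Mathlib
import Pool.Agent.V11117.Spec

namespace Pool.Agent.Results.MP_17c227_co.MedianCounterexample

open Finset Matrix Pool.Agent.V11117

/-- The real adjacency matrix of a graph is Hermitian. -/
lemma herm {V : Type*} [Fintype V] [DecidableEq V] (G : SimpleGraph V)
    [DecidableRel G.Adj] : (G.adjMatrix ℝ).IsHermitian := by
  rw [Matrix.IsHermitian, Matrix.conjTranspose_eq_transpose_of_trivial]
  exact G.isSymm_adjMatrix

/-- `lam G k` is the `k`-th largest eigenvalue `λ_k` (`1 ≤ k ≤ n`) of the adjacency matrix of `G`,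
eigenvalues being listed in weakly decreasing order with multiplicity (junk value `0` for
`k` out of range). -/
noncomputable def lam {n : ℕ} (G : SimpleGraph (Fin n)) [DecidableRel G.Adj] (k : ℕ) : ℝ :=
  if h : 1 ≤ k ∧ k ≤ Fintype.card (Fin n) then (herm G).eigenvalues₀ ⟨k - 1, by omega⟩ else 0

/-- block of a vertex: two copies of the `3 × 3` rook graph, one `4 × 4` rook graph -/
def blk (v : Fin 34) : ℕ := if v.val < 9 then 0 else if v.val < 18 then 1 else 2
/-- row of a vertex -/
def row (v : Fin 34) : ℕ := if v.val < 18 then (v.val % 9) / 3 else (v.val - 18) / 4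
/-- column of a vertex -/
def col (v : Fin 34) : ℕ := if v.val < 18 then v.val % 3 else (v.val - 18) % 4

/-- The witness: the disjoint union of two copies of `K₃ □ K₃` and one copy of `K₄ □ K₄`. -/
def G0 : SimpleGraph (Fin 34) where
  Adj v w := v ≠ w ∧ blk v = blk w ∧ (row v = row w ∨ col v = col w)
  symm := ⟨fun v w h => ⟨h.1.symm, h.2.1.symm, by
    rcases h.2.2 with h | h
    · exact Or.inl h.symm
    · exact Or.inr h.symm⟩⟩
  loopless := ⟨fun v h => h.1 rfl⟩

instance : DecidableRel G0.Adj := fun v w => by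
  unfold G0
  infer_instance

/-- data of the rank-17 factorisation: (block, is column?, index) -/
def lab (j : Fin 17) : ℕ × Bool × ℕ :=
  if j.val < 10 then
    (j.val / 5, if j.val % 5 < 3 then (false, j.val % 5) else (true, j.val % 5 - 3))
  else (2, if j.val - 10 < 4 then (false, j.val - 10) else (true, j.val - 14))

def lastCol (b : ℕ) : ℕ := if b < 2 then 2 else 3

def ind (v : Fin 34) (l : ℕ × Bool × ℕ) : ℤ :=
  if blk v = l.1 ∧ (if l.2.1 then col v else row v) = l.2.2 then 1 else 0

def P : Matrix (Fin 34) (Fin 17) ℤ := Matrix.of fun v j => ind v (lab j)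

def Q : Matrix (Fin 17) (Fin 34) ℤ := Matrix.of fun j v =>
  ind v (lab j) + (if (lab j).2.1 then -1 else 1) * ind v ((lab j).1, true, lastCol (lab j).1)

lemma factor : ∀ v w, (if G0.Adj v w then (1 : ℤ) else 0) + (if v = w then 2 else 0)
    = ∑ j, P v j * Q j w := by
  decide +kernel

lemma edges : G0.edgeFinset.card = 84 := by decide +kernel

lemma rank_le : (G0.adjMatrix ℝ + (2 : ℝ) • 1).rank ≤ 17 := by
  have h : G0.adjMatrix ℝ + (2 : ℝ) • 1
      = (P.map (Int.castRingHom ℝ)) * (Q.map (Int.castRingHom ℝ)) := by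
    ext v w
    have h1 := factor v w
    rw [Matrix.mul_apply, Matrix.add_apply, Matrix.smul_apply, SimpleGraph.adjMatrix_apply,
      Matrix.one_apply]
    simp only [Matrix.map_apply, Int.coe_castRingHom, smul_eq_mul, mul_ite, mul_one, mul_zero]
    have h2 := congrArg (fun z : ℤ => (z : ℝ)) h1
    push_cast at h2
    exact h2
  rw [h]
  refine (Matrix.rank_mul_le_left _ _).trans ((Matrix.rank_le_card_width _).trans ?_)
  rw [Fintype.card_fin]

lemma card_ne : (univ.filter (fun i => (herm G0).eigenvalues i ≠ -2)).card ≤ 17 := by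
  obtain ⟨U, u1, u2, u3⟩ := Spec.spec (herm G0)
  have h1 : diagonal (fun i => (herm G0).eigenvalues i + 2)
      = Uᵀ * (G0.adjMatrix ℝ + (2 : ℝ) • 1) * U := by
    have h2 : Uᵀ * G0.adjMatrix ℝ * U = diagonal (herm G0).eigenvalues := by
      calc Uᵀ * G0.adjMatrix ℝ * U
          = Uᵀ * (U * diagonal (herm G0).eigenvalues * Uᵀ) * U := by rw [← u3]
        _ = (Uᵀ * U) * diagonal (herm G0).eigenvalues * (Uᵀ * U) := by
            simp only [Matrix.mul_assoc]
        _ = _ := by rw [u1, Matrix.one_mul, Matrix.mul_one]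
    rw [Matrix.mul_add, Matrix.add_mul, h2, Matrix.mul_smul, Matrix.mul_one, Matrix.smul_mul, u1,
      ← Matrix.diagonal_one, ← Matrix.diagonal_smul, Matrix.diagonal_add]
    congr 1
    funext i
    simp
  have h3 : (diagonal (fun i => (herm G0).eigenvalues i + 2)).rank ≤ 17 := by
    rw [h1]
    exact (Matrix.rank_mul_le_left _ _).trans ((Matrix.rank_mul_le_right _ _).trans rank_le)
  rw [Matrix.rank_diagonal, Fintype.card_subtype] at h3
  refine le_trans (le_of_eq ?_) h3
  congr 1
  apply Finset.filter_congr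
  intro i _
  constructor
  · intro h h'
    exact h (by linarith)
  · intro h h'
    exact h (by rw [h']; norm_num)

lemma median_le : lam G0 18 ≤ -2 := by
  unfold lam
  rw [dif_pos (by rw [Fintype.card_fin]; norm_num)]
  by_contra hcon
  push Not at hcon
  have hanti := (herm G0).eigenvalues₀_antitone
  have hc : Fintype.card (Fin 34) = 34 := Fintype.card_fin 34
  -- the eighteen largest eigenvalues are all different from `-2`
  have h1 : ∀ j : Fin (Fintype.card (Fin 34)), j.val ≤ 17 → (herm G0).eigenvalues₀ j ≠ -2 := by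
    intro j hj h
    have h2 : (herm G0).eigenvalues₀ ⟨18 - 1, by rw [hc]; norm_num⟩ ≤ (herm G0).eigenvalues₀ j :=
      hanti (by rw [Fin.le_def]; exact hj)
    rw [h] at h2
    exact absurd h2 (not_le.mpr hcon)
  let e : Fin (Fintype.card (Fin 34)) ≃ Fin 34 :=
    Fintype.equivOfCardEq (Fintype.card_fin _)
  have h2 : (univ.filter (fun j : Fin (Fintype.card (Fin 34)) => j.val ≤ 17)).card
      ≤ (univ.filter (fun i => (herm G0).eigenvalues i ≠ -2)).card := by
    apply Finset.card_le_card_of_injOn e
    · intro j hj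
      rw [Finset.mem_coe, mem_filter] at hj
      rw [Finset.mem_coe, mem_filter]
      refine ⟨mem_univ _, ?_⟩
      have h3 := h1 j hj.2
      unfold Matrix.IsHermitian.eigenvalues
      simpa [e] using h3
    · intro a _ b _ h
      exact e.injective h
  have h3 : (univ.filter (fun j : Fin (Fintype.card (Fin 34)) => j.val ≤ 17)).card = 18 := by
    rw [hc]
    decide
  have h4 := card_ne
  omega

/-- **Disproof**: for `d = 84/17` there is a graph on `34` vertices of average degree `d` one of
whose median eigenvalues is at most `-2 < -√(d - 1)`. -/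
theorem result : ∃ d : ℝ, 2 ≤ d ∧ ∃ n : ℕ, 1 ≤ n ∧ ∃ (G : SimpleGraph (Fin n))
    (_ : DecidableRel G.Adj), 2 * (G.edgeFinset.card : ℝ) / n ≤ d ∧
    (√(d - 1) < |lam G ((n + 1) / 2)| ∨ √(d - 1) < |lam G ((n + 2) / 2)|) := by
  refine ⟨84 / 17, by norm_num, 34, by norm_num, G0, inferInstance, ?_, Or.inr ?_⟩
  · rw [edges]
    norm_num
  · have h1 : √((84 : ℝ) / 17 - 1) < 2 := by
      rw [Real.sqrt_lt' (by norm_num)]
      norm_num
    have h2 : lam G0 ((34 + 2) / 2) ≤ -2 := median_le
    have h3 : 2 ≤ |lam G0 ((34 + 2) / 2)| := by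
      rw [le_abs]
      right
      linarith
    linarith

end Pool.Agent.Results.MP_17c227_co.MedianCounterexample
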